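import Pool.Agent.W72.BaQ

set_option autoImplicit false

/-!
The construction of Pool.Agent.W72.BaM with a prescribed beginning of the word, and the values of
the exponents for all degrees between `2` and `n`.
-/

namespace Pool.Agent.Y138.BA

open Polynomial Matrix MeasureTheory
open Pool.Agent.W72
open Pool.Agent.Helper35 (ht natAbs_coeff_le_ht IrrQ ht_intCast_mul ht_pos SSet IsMinZ)

theorem construction_pre (n : ℕ) (hn : 1 ≤ n) (w wg : ℝ) (hw : (n : ℝ) ≤ w)
    (hwg : wg = w ∨ wg = w + 1) (L : List Bool) (hL : L ≠ []) :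
    ∃ (s : ℕ → Bool) (U : ℕ → List Bool) (σ : ℕ → ℕ → Bool) (t : ℕ → ℕ), (∃ τ, s = app L τ) ∧
      StrictMono t ∧
      (∀ k, ∃ V, U k = V ++ [true]) ∧ (∀ k, k < (U k).length) ∧
      (∀ k, s = app (extW wg (U k)) (σ k)) ∧
      ∀ k, ∀ P : ℤ[X], P.natDegree ≤ n → 2 ^ (t k) ≤ ht P → ht P < 2 ^ (t (k + 1)) →
        aeval (mL (U k) Real.goldenRatio) P ≠ 0 →
        (ht P : ℝ) ^ (-w - 1 / ((k : ℝ) + 1)) ≤ |aeval (eta s) P| := by
  classical
  obtain ⟨c, hc⟩ : ∃ c, c = ⌈w⌉₊ + 3 := ⟨_, rfl⟩
  have h1 : ∀ k : ℕ, ∀ A : ℕ, ∃ t0 : ℕ, ∀ t, t0 ≤ t → ∀ t' : ℕ, ∀ W : List Bool, W ≠ [] →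
      W.length ≤ A →
      16 * (Finset.univ.filter (fun p : (Fin (c * t) → Bool) × (Fin (c * t') → Bool) =>
        FailP n w wg (1 / ((k : ℝ) + 1)) t t' W (List.ofFn p.1) (List.ofFn p.2))).card ≤
      2 ^ (c * t) * 2 ^ (c * t') := by
    intro k A
    rw [hc]
    refine stage_count n hn w wg hw hwg (1 / ((k : ℝ) + 1)) (by positivity) ?_ A
    rw [div_le_one (by positivity)]
    have : (0 : ℝ) ≤ k := Nat.cast_nonneg _
    linarith
  choose t0f ht0f using h1
  have hstep : ∀ k st, Good c t0f k st → ∃ st', Good c t0f (k + 1) st' ∧ Rel n w wg k st st' :=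
    fun k st hst => step n w wg c t0f k (fun A t ht t' W hW hWA => ht0f k A t ht t' W hW hWA) st hst
  -- initial state
  have hinit : ∃ st, Good c t0f 0 st ∧ st.W = L := by
    refine ⟨⟨L, t0f 0 L.length,
      (Finset.univ : Finset (Fin (c * t0f 0 L.length) → Bool)).image List.ofFn⟩,
      ⟨?_, ?_, ?_, ?_⟩, rfl⟩
    · exact hL
    · show t0f 0 L.length ≤ t0f 0 L.length
      exact le_rfl
    · intro R hR
      obtain ⟨f', _, rfl⟩ := Finset.mem_image.mp hR
      show (List.ofFn f').length = c * t0f 0 L.length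
      simp
    · show 3 * 2 ^ (c * t0f 0 L.length) ≤ 4 * (Finset.image _ _).card
      rw [Finset.card_image_of_injective _ List.ofFn_injective, Finset.card_univ,
        Fintype.card_fun, Fintype.card_fin, Fintype.card_bool]
      omega
  obtain ⟨st0, hst0, hst0W⟩ := hinit
  choose! nxt hnxt1 hnxt2 using hstep
  obtain ⟨f, hf0, hfs⟩ : ∃ f : ℕ → St, f 0 = st0 ∧ ∀ k, f (k + 1) = nxt k (f k) :=
    ⟨fun k => Nat.rec st0 (fun k st => nxt k st) k, rfl, fun k => rfl⟩
  have hgood : ∀ k, Good c t0f k (f k) := by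
    intro k
    induction k with
    | zero => rw [hf0]; exact hst0
    | succ k ih => rw [hfs]; exact hnxt1 k _ ih
  have hrel : ∀ k, Rel n w wg k (f k) (f (k + 1)) := by
    intro k
    rw [hfs]
    exact hnxt2 k _ (hgood k)
  have hR : ∀ k, ∃ R ∈ (f k).G, (f (k + 1)).W = extW wg ((f k).W ++ (R ++ [true])) ∧
    ∀ R' ∈ (f (k + 1)).G, ¬ FailP n w wg (1 / ((k : ℝ) + 1)) (f k).t (f (k + 1)).t (f k).W R R' :=
    fun k => (hrel k).2
  choose R hRG hRW hRF using hR
  obtain ⟨s, hs⟩ := limit_word (fun k => (f k).W)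
    (fun k => (R k ++ [true]) ++ (List.replicate (mU wg ((f k).W ++ (R k ++ [true]))) false ++
      [true])) (fun k => by simp) (fun k => by
        show (f (k + 1)).W = _
        rw [hRW k]
        unfold extW
        rw [List.append_assoc])
  obtain ⟨U, hU⟩ : ∃ U : ℕ → List Bool, U = fun k => (f k).W ++ (R k ++ [true]) := ⟨_, rfl⟩
  have hUk : ∀ k, U k = (f k).W ++ (R k ++ [true]) := fun k => by rw [hU]
  have hsU : ∀ k, ∃ σ, s = app (extW wg (U k)) σ := by
    intro k
    obtain ⟨σ, hσ⟩ := hs (k + 1)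
    refine ⟨σ, ?_⟩
    rw [hUk, ← hRW k]
    exact hσ
  choose σ hσ using hsU
  have hlen : ∀ k, k < (U k).length := by
    have h2 : ∀ k, k ≤ (f k).W.length := by
      intro k
      induction k with
      | zero => exact Nat.zero_le _
      | succ k ih =>
        rw [hRW k]
        unfold extW
        simp only [List.length_append, List.length_singleton]
        omega
    intro k
    rw [hUk]
    have := h2 k
    simp only [List.length_append, List.length_singleton]
    omega
  refine ⟨s, U, σ, fun k => (f k).t, ?_, ?_, ?_, hlen, hσ, ?_⟩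
  · obtain ⟨σ0, hσ0⟩ := hs 0
    refine ⟨σ0, ?_⟩
    have : (f 0).W = L := by rw [hf0]; exact hst0W
    rw [← this]
    exact hσ0
  · exact strictMono_nat_of_lt_succ fun k => (hrel k).1
  · intro k
    exact ⟨(f k).W ++ R k, by rw [hUk, List.append_assoc]⟩
  · intro k P hPn hP1 hP2 hPφ
    by_contra hcon
    push Not at hcon
    obtain ⟨σ', hσ'⟩ := hs (k + 2)
    have e1 : (f (k + 2)).W = (U k ++ ((List.replicate (mU wg (U k)) false ++ [true]) ++
        R (k + 1))) ++ ([true] ++
        (List.replicate (mU wg (U (k + 1))) false ++ [true])) := by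
      have h2 : (f (k + 2)).W = extW wg (U (k + 1)) := by
        rw [hUk]; exact hRW (k + 1)
      have h3 : (f (k + 1)).W = extW wg (U k) := by
        rw [hUk]; exact hRW k
      rw [h2]
      conv_lhs => unfold extW
      have h4 : U (k + 1) = extW wg (U k) ++ (R (k + 1) ++ [true]) := by rw [hUk (k + 1), h3]
      nth_rewrite 1 [h4]
      unfold extW
      simp only [List.append_assoc]
    have e2 : s = app (U k ++ ((List.replicate (mU wg (U k)) false ++ [true]) ++ R (k + 1)))
        (app ([true] ++ (List.replicate (mU wg (U (k + 1))) false ++ [true])) σ') := by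
      rw [← app_append, ← e1]
      exact hσ'
    have e3 : eta s = mL (U k ++ ((List.replicate (mU wg (U k)) false ++ [true]) ++ R (k + 1)))
        (eta (app ([true] ++ (List.replicate (mU wg (U (k + 1))) false ++ [true])) σ')) := by
      rw [← eta_app, ← e2]
    have h5 := eta_ge (app ([true] ++ (List.replicate (mU wg (U (k + 1))) false ++ [true])) σ')
    have h6 := eta_le (app ([true] ++ (List.replicate (mU wg (U (k + 1))) false ++ [true])) σ')
    refine hRF k (R (k + 1)) (hRG (k + 1)) ⟨P, hPn, hP1, hP2, ?_, _, by linarith, h6, ?_⟩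
    · rw [← hUk]; exact hPφ
    · rw [← hUk, ← e3]; exact hcon

end Pool.Agent.Y138.BA
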