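import Mathlib

set_option autoImplicit false

/-!
Definitions: height, exponents of approximation, badly approximable numbers, continued fractions.
-/

namespace Pool.Agent.Y138.BA

open Polynomial

/-- The naive height of an integer polynomial: the maximum absolute value of its coefficients. -/
noncomputable def height (P : ℤ[X]) : ℕ := P.support.sup (fun i => (P.coeff i).natAbs)

/-- `P` is the minimal polynomial over `ℤ` of the complex number `α`: irreducible, primitive,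
with positive leading coefficient, vanishing at `α`. -/
def IsMinPolyZ (P : ℤ[X]) (α : ℂ) : Prop :=
  Irreducible P ∧ P.IsPrimitive ∧ 0 < P.leadingCoeff ∧ aeval α P = 0

/-- Mahler's exponent `w_n(ξ)`, in the extended reals: the supremum of the real `w` for which
infinitely many integer polynomials `P` of degree at most `n` satisfy `0 < |P(ξ)| ≤ H(P)^(-w)`. -/
noncomputable def wMahler (ξ : ℝ) (n : ℕ) : EReal :=
  sSup {W : EReal | ∃ w : ℝ, W = (w : EReal) ∧
    {P : ℤ[X] | P.natDegree ≤ n ∧ 0 < |aeval ξ P| ∧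
      |aeval ξ P| ≤ (height P : ℝ) ^ (-w)}.Infinite}

/-- Koksma's exponent `w_n^*(ξ)`, in the extended reals: the supremum of the real `w` for which
infinitely many (complex) algebraic numbers `α` of degree at most `n` satisfy
`0 < |ξ - α| ≤ H(α)^(-w-1)`. -/
noncomputable def wKoksma (ξ : ℝ) (n : ℕ) : EReal :=
  sSup {W : EReal | ∃ w : ℝ, W = (w : EReal) ∧
    {α : ℂ | ∃ P : ℤ[X], IsMinPolyZ P α ∧ P.natDegree ≤ n ∧ 0 < ‖(ξ : ℂ) - α‖ ∧
      ‖(ξ : ℂ) - α‖ ≤ (height P : ℝ) ^ (-w - 1)}.Infinite}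

/-- The same exponent when only real algebraic numbers `α` are allowed. -/
noncomputable def wKoksmaReal (ξ : ℝ) (n : ℕ) : EReal :=
  sSup {W : EReal | ∃ w : ℝ, W = (w : EReal) ∧
    {α : ℝ | ∃ P : ℤ[X], IsMinPolyZ P (α : ℂ) ∧ P.natDegree ≤ n ∧ 0 < |ξ - α| ∧
      |ξ - α| ≤ (height P : ℝ) ^ (-w - 1)}.Infinite}

/-- Badly approximable real numbers. -/
def BadlyApproximable (ξ : ℝ) : Prop :=
  Irrational ξ ∧ ∃ c : ℝ, 0 < c ∧ ∀ p q : ℤ, 1 ≤ q → c / (q : ℝ) ^ 2 ≤ |ξ - (p : ℝ) / (q : ℝ)|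

/-- `ξ = [a 0; a 1, a 2, ...]`: there are complete quotients `x 0 = ξ, x 1, x 2, ...` with
`x (i + 1) > 1` and `x i = a i + 1 / x (i + 1)` for every `i`. -/
def IsContinuedFraction (ξ : ℝ) (a : ℕ → ℕ) : Prop :=
  ∃ x : ℕ → ℝ, x 0 = ξ ∧ ∀ i, 1 < x (i + 1) ∧ x i = (a i : ℝ) + 1 / x (i + 1)

/-- The continued fraction expansion of `ξ` begins with the list `L` and all its partial quotients
are `1` or `2`. -/
def OneTwoFrom (ξ : ℝ) (L : List ℕ) : Prop :=
  ∃ a : ℕ → ℕ, IsContinuedFraction ξ a ∧ (∀ i, a i = 1 ∨ a i = 2) ∧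
    ∀ i (h : i < L.length), a i = L[i]

end Pool.Agent.Y138.BA
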