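import Pool.Agent.Y138.BA.Cons

set_option autoImplicit false

namespace Pool.Agent.Y138.BA

open Polynomial Matrix MeasureTheory
open Pool.Agent.W72
open Pool.Agent.Helper35 (ht natAbs_coeff_le_ht IrrQ ht_intCast_mul ht_pos SSet IsMinZ)

theorem mahler_gen (n : ℕ) (hn : 2 ≤ n) (w wg : ℝ) (hw : (n : ℝ) ≤ w) (hwg : w ≤ wg)
    (s : ℕ → Bool) (U : ℕ → List Bool) (σ : ℕ → ℕ → Bool) (t : ℕ → ℕ) (htm : StrictMono t)
    (hU : ∀ k, ∃ V, U k = V ++ [true]) (hl : ∀ k, k < (U k).length)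
    (hs : ∀ k, s = app (extW wg (U k)) (σ k))
    (hlow : ∀ k, ∀ P : ℤ[X], P.natDegree ≤ n → 2 ^ (t k) ≤ ht P → ht P < 2 ^ (t (k + 1)) →
        aeval (mL (U k) Real.goldenRatio) P ≠ 0 →
        (ht P : ℝ) ^ (-w - 1 / ((k : ℝ) + 1)) ≤ |aeval (eta s) P|) :
    (∀ ε : ℝ, 0 < ε → ∃ c : ℝ, 0 < c ∧ ∀ P : ℤ[X], P ≠ 0 → P.natDegree ≤ n →
      c ≤ |aeval (eta s) P| * (ht P : ℝ) ^ (wg + ε)) ∧
    ∀ w' : ℝ, 0 ≤ w' → w' < wg → {P : ℤ[X] | P ≠ 0 ∧ P.natDegree ≤ 2 ∧ 0 < |aeval (eta s) P| ∧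
      |aeval (eta s) P| ≤ (ht P : ℝ) ^ (-w')}.Infinite := by
  have hn2 : (2 : ℝ) ≤ n := by exact_mod_cast hn
  refine ⟨?_, ?_⟩
  · intro ε hε
    obtain ⟨H0, hH0⟩ := dichotomy n w (eta s) U t htm hU hlow ε hε
    obtain ⟨κ0, hκ0⟩ : ∃ κ0 : ℝ, κ0 = min 1 (1 / (18432 * 4 ^ wg)) := ⟨_, rfl⟩
    have h4w : (0 : ℝ) < 4 ^ wg := Real.rpow_pos_of_pos (by norm_num) _
    have hκ0pos : 0 < κ0 := by rw [hκ0]; exact lt_min one_pos (by positivity)
    refine general_bound_real (eta s) n (wg + ε) (by linarith) κ0 hκ0pos H0 ?_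
    intro P hP hPn hPH
    rcases hH0 P hP hPn hPH with h | ⟨k, r, hr, hPr⟩
    · have hH1 : (1 : ℝ) ≤ ht P := by exact_mod_cast ht_pos hP.ne_zero
      refine ((by rw [hκ0]; exact min_le_left _ _ : κ0 ≤ 1).trans h).trans ?_
      apply mul_le_mul_of_nonneg_left _ (abs_nonneg _)
      exact Real.rpow_le_rpow_of_exponent_le hH1 (by linarith)
    · obtain ⟨V, hV⟩ := hU k
      have h1 := (PU_value wg (by linarith) V (U k) hV (σ k)).1
      rw [← hs k] at h1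
      have h2 := q_le_ht wg (by linarith) V (U k) hV r hr
      rw [← hPr] at h2
      have hH1 : (1 : ℝ) ≤ ht P := by exact_mod_cast ht_pos hP.ne_zero
      have h3 : |aeval (eta s) (PU (U k))| ≤ |aeval (eta s) P| := by
        rw [hPr, map_mul, abs_mul]
        have h4 : 1 ≤ |aeval (eta s) (C r : ℤ[X])| := by
          rw [aeval_C]
          simp only [algebraMap_int_eq, eq_intCast]
          exact_mod_cast Int.one_le_abs hr
        nlinarith [abs_nonneg (aeval (eta s) (PU (U k)))]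
      have hHw : (0 : ℝ) < (ht P : ℝ) ^ wg := Real.rpow_pos_of_pos (by linarith) _
      have hq := (re_rel (U k) (by rw [hV]; simp)).1
      have hqw : 0 < re (U k) 1 0 ^ (2 * wg) := Real.rpow_pos_of_pos (by linarith) _
      calc κ0 ≤ 1 / (18432 * 4 ^ wg) := by rw [hκ0]; exact min_le_right _ _
        _ = 1 / (18432 * (4 ^ wg * (ht P : ℝ) ^ wg)) * (ht P : ℝ) ^ wg := by field_simp
        _ ≤ 1 / (18432 * re (U k) 1 0 ^ (2 * wg)) * (ht P : ℝ) ^ wg := by gcongr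
        _ ≤ |aeval (eta s) P| * (ht P : ℝ) ^ wg := by
            have := h1.trans h3
            gcongr
        _ ≤ _ := by
            apply mul_le_mul_of_nonneg_left _ (abs_nonneg _)
            exact Real.rpow_le_rpow_of_exponent_le hH1 (by linarith)
  · intro w' hw'0 hw'
    obtain ⟨M, hM1, hM⟩ := small_aux 96 100 wg w' (by norm_num) (by norm_num) hw'0 hw'
    intro hfin
    obtain ⟨B, hB⟩ := (hfin.image ht).bddAbove
    obtain ⟨k, hk⟩ := q_large U hl (max M (4 * (B + 1)))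
    have hk' := hk k le_rfl
    obtain ⟨V, hV⟩ := hU k
    have hq1 := (re_rel (U k) (by rw [hV]; simp)).1
    obtain ⟨v1, v2⟩ := PU_value wg (by linarith) V (U k) hV (σ k)
    rw [← hs k] at v1 v2
    obtain ⟨g1, g2⟩ := PU_ht V (U k) hV
    have hne := PU_ne_zero V (U k) hV
    have hqw : 0 < re (U k) 1 0 ^ (2 * wg) := Real.rpow_pos_of_pos (by linarith) _
    have hpos : (0 : ℝ) < ht (PU (U k)) := by exact_mod_cast ht_pos hne
    have hmem : PU (U k) ∈ {P : ℤ[X] | P ≠ 0 ∧ P.natDegree ≤ 2 ∧ 0 < |aeval (eta s) P| ∧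
        |aeval (eta s) P| ≤ (ht P : ℝ) ^ (-w')} := by
      refine ⟨hne, PU_natDegree_le _, lt_of_lt_of_le (by positivity) v1, ?_⟩
      exact v2.trans (hM _ ((le_max_left _ _).trans hk') _ hpos g2)
    have hle : ht (PU (U k)) ≤ B := hB ⟨_, hmem, rfl⟩
    have hle' : (ht (PU (U k)) : ℝ) ≤ B := by exact_mod_cast hle
    have h1 : 4 * ((B : ℝ) + 1) ≤ re (U k) 1 0 := (le_max_right _ _).trans hk'
    have hB0 : (0 : ℝ) ≤ B := Nat.cast_nonneg _
    nlinarith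


theorem koksma_gen (n : ℕ) (hn : 2 ≤ n) (w : ℝ) (hw : (n : ℝ) ≤ w)
    (s : ℕ → Bool) (U : ℕ → List Bool) (σ : ℕ → ℕ → Bool) (t : ℕ → ℕ) (htm : StrictMono t)
    (hU : ∀ k, ∃ V, U k = V ++ [true]) (hl : ∀ k, k < (U k).length)
    (hs : ∀ k, s = app (extW (w + 1) (U k)) (σ k))
    (hlow : ∀ k, ∀ P : ℤ[X], P.natDegree ≤ n → 2 ^ (t k) ≤ ht P → ht P < 2 ^ (t (k + 1)) →
        aeval (mL (U k) Real.goldenRatio) P ≠ 0 →
        (ht P : ℝ) ^ (-w - 1 / ((k : ℝ) + 1)) ≤ |aeval (eta s) P|) :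
    (∀ ε : ℝ, 0 < ε → ∃ c : ℝ, 0 < c ∧ ∃ H0 : ℕ, ∀ (P : ℤ[X]) (α : ℂ), Irreducible P →
      P.IsPrimitive → aeval α P = 0 → P.natDegree ≤ n → ‖((eta s : ℝ) : ℂ) - α‖ ≤ 1 →
      H0 ≤ ht P → c ≤ ‖((eta s : ℝ) : ℂ) - α‖ * (ht P : ℝ) ^ (w + ε + 1)) ∧
    ∀ w' : ℝ, 0 ≤ w' → w' < w → w' ∈ SSet (eta s) 2 := by
  have hn2 : (2 : ℝ) ≤ n := by exact_mod_cast hn
  refine ⟨?_, ?_⟩
  · intro ε hε
    obtain ⟨H0, hH0⟩ := dichotomy n w (eta s) U t htm hU hlow ε hε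
    have h4w : (0 : ℝ) < 4 ^ (w + 1) := Real.rpow_pos_of_pos (by norm_num) _
    obtain ⟨K, hK⟩ : ∃ K : ℝ, K = ((n : ℝ) + 1) ^ 2 * 4 ^ n := ⟨_, rfl⟩
    have hK0 : 0 < K := by rw [hK]; positivity
    refine ⟨min (1 / K) (1 / (3686400 * 4 ^ (w + 1))), lt_min (by positivity) (by positivity), H0,
      ?_⟩
    intro P α hPirr hPprim hPα hPn hclose hPH
    have hP0 : P ≠ 0 := hPirr.ne_zero
    have hirrQ : IrrQ P := (IsPrimitive.Int.irreducible_iff_irreducible_map_cast hPprim).mp hPirr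
    have hH1 : (1 : ℝ) ≤ ht P := by exact_mod_cast ht_pos hP0
    have hHpos : (0 : ℝ) < ht P := by linarith
    have hξ3 := eta_le s
    have hξ1 := eta_ge s
    have hξn : ‖((eta s : ℝ) : ℂ)‖ ≤ 3 := by
      rw [Complex.norm_real, Real.norm_eq_abs, abs_of_nonneg (by linarith)]; exact hξ3
    have hαn : ‖α‖ ≤ 4 := by
      have : α = ((eta s : ℝ) : ℂ) - (((eta s : ℝ) : ℂ) - α) := by ring
      rw [this]
      exact (norm_sub_le _ _).trans (by linarith)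
    rcases hH0 P hirrQ hPn hPH with h | ⟨k, r, hr, hPr⟩
    · refine (min_le_left _ _).trans ?_
      have h1 := aeval_lipC n P hPn (x := ((eta s : ℝ) : ℂ)) (y := α) (by linarith) hαn
      rw [hPα, sub_zero, aeval_coe, Complex.norm_real, Real.norm_eq_abs, ← hK] at h1
      rw [div_le_iff₀ hK0]
      calc (1 : ℝ) ≤ |aeval (eta s) P| * (ht P : ℝ) ^ (w + ε) := h
        _ ≤ (K * ht P * ‖((eta s : ℝ) : ℂ) - α‖) * (ht P : ℝ) ^ (w + ε) := by gcongr
        _ = _ := by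
            rw [Real.rpow_add_one hHpos.ne']
            ring
    · refine (min_le_right _ _).trans ?_
      obtain ⟨V, hV⟩ := hU k
      have hα' : aeval α (PU (U k)) = 0 := by
        rw [hPr, map_mul] at hPα
        have h1 : aeval α (C r : ℤ[X]) ≠ 0 := by
          rw [aeval_C]
          simpa using hr
        exact (mul_eq_zero.mp hPα).resolve_left h1
      have h1 := root_dist (w + 1) (by linarith) V (U k) hV (σ k) α hα'
      rw [← hs k] at h1
      have h2 := q_le_ht (w + 1) (by linarith) V (U k) hV r hr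
      rw [← hPr] at h2
      have hHw : (0 : ℝ) < (ht P : ℝ) ^ (w + 1) := Real.rpow_pos_of_pos (by linarith) _
      have hq := (re_rel (U k) (by rw [hV]; simp)).1
      have hqw : 0 < re (U k) 1 0 ^ (2 * (w + 1)) := Real.rpow_pos_of_pos (by linarith) _
      calc (1 : ℝ) / (3686400 * 4 ^ (w + 1)) =
            1 / (3686400 * (4 ^ (w + 1) * (ht P : ℝ) ^ (w + 1))) * (ht P : ℝ) ^ (w + 1) := by
              field_simp
        _ ≤ 1 / (3686400 * re (U k) 1 0 ^ (2 * (w + 1))) * (ht P : ℝ) ^ (w + 1) := by gcongr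
        _ ≤ ‖((eta s : ℝ) : ℂ) - α‖ * (ht P : ℝ) ^ (w + 1) := by gcongr
        _ ≤ _ := by
            apply mul_le_mul_of_nonneg_left _ (norm_nonneg _)
            exact Real.rpow_le_rpow_of_exponent_le hH1 (by linarith)
  · intro w' hw'0 hw'
    obtain ⟨M, hM1, hM⟩ := small_aux 2 1200 (w + 1) (w' + 1) (by norm_num) (by norm_num)
      (by linarith) (by linarith)
    have hmem : ∀ k, M ≤ re (U k) 1 0 → mL (U k) Real.goldenRatio ∈
        {α : ℝ | ∃ P : ℤ[X], IsMinZ P α ∧ P.natDegree ≤ 2 ∧ 0 < |eta s - α| ∧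
          |eta s - α| ≤ (ht P : ℝ) ^ (-w' - 1)} := by
      intro k hk
      obtain ⟨V, hV⟩ := hU k
      have hne := PU_ne_zero V (U k) hV
      obtain ⟨Q, hQ1, hQ2⟩ := exists_minZ_dvd (PU (U k)) hne _ (PU_root (U k))
      obtain ⟨a1, a2⟩ := approx (w + 1) (by linarith) (U k) (by rw [hV]; simp) (σ k)
      rw [← hs k] at a1 a2
      have hq1 := (re_rel (U k) (by rw [hV]; simp)).1
      have hqw : 0 < re (U k) 1 0 ^ (2 * (w + 1)) := Real.rpow_pos_of_pos (by linarith) _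
      have h1 := ht_dvd hne hQ2 (PU_natDegree_le (U k))
      have h2 := (PU_ht V (U k) hV).2
      have h3 : (ht Q : ℝ) ≤ 1200 * re (U k) 1 0 ^ 2 := by
        push_cast at h1
        linarith
      have hQ0 : Q ≠ 0 := hQ1.1.ne_zero
      have hpos : (0 : ℝ) < ht Q := by exact_mod_cast ht_pos hQ0
      refine ⟨Q, hQ1, (natDegree_le_of_dvd hQ2 hne).trans (PU_natDegree_le _),
        lt_of_lt_of_le (by positivity) a1, ?_⟩
      have h4 := hM _ hk _ hpos h3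
      rw [show -(w' + 1) = -w' - 1 by ring] at h4
      exact a2.trans h4
    show Set.Infinite _
    intro hfin
    obtain ⟨k1, hk1⟩ := q_large U hl M
    obtain ⟨α0, hα0, hmin⟩ := hfin.toFinset.exists_min_image (fun α => |eta s - α|)
      ⟨_, hfin.mem_toFinset.mpr (hmem k1 (hk1 k1 le_rfl))⟩
    have hα0' := hfin.mem_toFinset.mp hα0
    obtain ⟨_, _, _, hδ, _⟩ := hα0'
    obtain ⟨k2, hk2⟩ := q_large U hl (max M (4 / |eta s - α0|))
    have hk2' := hk2 k2 le_rfl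
    have hm2 := hmin _ (hfin.mem_toFinset.mpr (hmem k2 ((le_max_left _ _).trans hk2')))
    obtain ⟨V, hV⟩ := hU k2
    obtain ⟨_, a2⟩ := approx (w + 1) (by linarith) (U k2) (by rw [hV]; simp) (σ k2)
    rw [← hs k2] at a2
    have hq1 := (re_rel (U k2) (by rw [hV]; simp)).1
    have h4 : 4 / |eta s - α0| ≤ re (U k2) 1 0 := (le_max_right _ _).trans hk2'
    have h5 : re (U k2) 1 0 ≤ re (U k2) 1 0 ^ (2 * (w + 1)) := by
      calc re (U k2) 1 0 = re (U k2) 1 0 ^ (1 : ℝ) := (Real.rpow_one _).symm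
        _ ≤ _ := Real.rpow_le_rpow_of_exponent_le hq1 (by linarith)
    have h6 : 2 / re (U k2) 1 0 ^ (2 * (w + 1)) < |eta s - α0| := by
      have hqp : 0 < re (U k2) 1 0 ^ (2 * (w + 1)) := by linarith
      rw [div_lt_iff₀ hqp]
      rw [div_le_iff₀ hδ] at h4
      nlinarith
    linarith


end Pool.Agent.Y138.BA
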