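import Pool.Agent.Y138.BA.Defs
import Pool.Agent.Y138.BA.Vals

set_option autoImplicit false

namespace Pool.Agent.Y138.BA

open Polynomial

theorem bad_key (s : ℕ → Bool) (p q : ℤ) (hq : 1 ≤ q) : (1 / 6 : ℝ) / (q : ℝ) ^ 2 ≤
      |Pool.Agent.W72.eta s - (p : ℝ) / (q : ℝ)| := by
  have h1 := Pool.Agent.W72.eta_bad s p q hq
  have hq0 : (0 : ℝ) < q := by
    have : (1 : ℝ) ≤ q := by exact_mod_cast hq
    linarith
  have e : Pool.Agent.W72.eta s - (p : ℝ) / (q : ℝ) = (q * Pool.Agent.W72.eta s - p) / q := by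
    field_simp
  rw [e, abs_div, abs_of_pos hq0, le_div_iff₀ hq0]
  calc (1 / 6 : ℝ) / (q : ℝ) ^ 2 * q = 1 / (6 * (q : ℝ)) := by field_simp
    _ ≤ _ := h1

theorem bad_eta (s : ℕ → Bool) : BadlyApproximable (Pool.Agent.W72.eta s) := by
  have key := bad_key s
  refine ⟨?_, 1 / 6, by norm_num, key⟩
  rintro ⟨r, hr⟩
  have h1 := key r.num r.den (by exact_mod_cast r.pos)
  have e : Pool.Agent.W72.eta s - (r.num : ℝ) / ((r.den : ℤ) : ℝ) = 0 := by
    rw [← hr]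
    have : (r : ℝ) = (r.num : ℝ) / (r.den : ℝ) := by exact_mod_cast (Rat.num_div_den r).symm
    rw [this]
    push_cast
    ring
  rw [e, abs_zero] at h1
  have h2 : (0 : ℝ) < ((r.den : ℤ) : ℝ) := by exact_mod_cast r.pos
  have : (0 : ℝ) < (1 / 6 : ℝ) / (((r.den : ℤ)) : ℝ) ^ 2 := by positivity
  linarith

theorem sSup_eq_of (S : Set ℝ) (a : ℝ) (ha : 0 < a) (h1 : ∀ w ∈ S, w ≤ a)
    (h2 : ∀ w : ℝ, 0 ≤ w → w < a → w ∈ S) :
    sSup {W : EReal | ∃ w : ℝ, W = (w : EReal) ∧ w ∈ S} = (a : EReal) := by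
  apply le_antisymm
  · apply sSup_le
    rintro W ⟨w, rfl, hw⟩
    exact_mod_cast h1 w hw
  · apply le_of_forall_lt
    intro c hc
    obtain ⟨b, hb1, hb2⟩ := EReal.lt_iff_exists_real_btwn.mp hc
    have hba : b < a := by exact_mod_cast hb2
    have hmem : max b 0 ∈ S := h2 _ (le_max_right _ _) (max_lt hba ha)
    refine lt_of_lt_of_le hb1 ?_
    refine le_trans ?_ (le_sSup ⟨max b 0, rfl, hmem⟩)
    exact_mod_cast le_max_left b 0

theorem height_eq (P : ℤ[X]) : height P = Pool.Agent.Helper35.ht P := rfl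

/-- For large heights the powers compare. -/
theorem exists_big (c d : ℝ) (hc : 0 < c) (hd : 0 < d) : ∃ H : ℕ, ∀ h : ℕ, H < h →
    (h : ℝ) ^ (-d) < c := by
  have hlim : Filter.Tendsto (fun H : ℕ => (H : ℝ) ^ (-d)) Filter.atTop (nhds 0) :=
    (tendsto_rpow_neg_atTop hd).comp tendsto_natCast_atTop_atTop
  obtain ⟨H, hH⟩ := Filter.eventually_atTop.mp (hlim.eventually_lt_const hc)
  exact ⟨H, fun h hh => hH h hh.le⟩

theorem wMahler_eq (n : ℕ) (w : ℝ) (hw : 0 < w) (s : ℕ → Bool)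
    (h1 : ∀ ε : ℝ, 0 < ε → ∃ c : ℝ, 0 < c ∧ ∀ P : ℤ[X], P ≠ 0 → P.natDegree ≤ n →
      c ≤ |aeval (Pool.Agent.W72.eta s) P| * (Pool.Agent.Helper35.ht P : ℝ) ^ (w + ε))
    (h2 : ∀ w' : ℝ, 0 ≤ w' → w' < w → {P : ℤ[X] | P ≠ 0 ∧ P.natDegree ≤ 2 ∧
      0 < |aeval (Pool.Agent.W72.eta s) P| ∧
      |aeval (Pool.Agent.W72.eta s) P| ≤ (Pool.Agent.Helper35.ht P : ℝ) ^ (-w')}.Infinite)
    (k : ℕ) (hk2 : 2 ≤ k) (hkn : k ≤ n) :
    wMahler (Pool.Agent.W72.eta s) k = (w : EReal) := by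
  apply sSup_eq_of _ w hw
  · intro w' hw'
    by_contra hcon
    push Not at hcon
    obtain ⟨c, hc, hP⟩ := h1 ((w' - w) / 2) (by linarith)
    obtain ⟨H, hH⟩ := exists_big c ((w' - w) / 2) hc (by linarith)
    obtain ⟨P, ⟨hPn, hPpos, hPle⟩, hPH⟩ := Pool.Agent.Helper35.exists_ht_gt
      (show Set.Infinite {P : ℤ[X] | P.natDegree ≤ k ∧ 0 < |aeval (Pool.Agent.W72.eta s) P| ∧
        |aeval (Pool.Agent.W72.eta s) P| ≤ (height P : ℝ) ^ (-w')} from hw')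
      (fun P hP => hP.1) H
    have hP0 : P ≠ 0 := by
      rintro rfl
      simp at hPpos
    have h3 := hP P hP0 (hPn.trans hkn)
    have h4 := hH _ hPH
    rw [height_eq] at hPle
    have hpos : (0 : ℝ) < Pool.Agent.Helper35.ht P := by
      exact_mod_cast Pool.Agent.Helper35.ht_pos hP0
    have h5 : c ≤ (Pool.Agent.Helper35.ht P : ℝ) ^ (-w') *
        (Pool.Agent.Helper35.ht P : ℝ) ^ (w + (w' - w) / 2) :=
      h3.trans (mul_le_mul_of_nonneg_right hPle (Real.rpow_nonneg hpos.le _))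
    rw [← Real.rpow_add hpos] at h5
    have e : -w' + (w + (w' - w) / 2) = -((w' - w) / 2) := by ring
    rw [e] at h5
    linarith
  · intro w' hw'0 hw'
    refine (h2 w' hw'0 hw').mono ?_
    rintro P ⟨_, hPn, hPpos, hPle⟩
    exact ⟨hPn.trans hk2, hPpos, hPle⟩

theorem wKoksma_eq (n : ℕ) (w : ℝ) (hw : 0 < w) (ξ : ℝ)
    (h1 : ∀ ε : ℝ, 0 < ε → ∃ c : ℝ, 0 < c ∧ ∃ H0 : ℕ, ∀ (P : ℤ[X]) (α : ℂ), Irreducible P →
      P.IsPrimitive → aeval α P = 0 → P.natDegree ≤ n → ‖(ξ : ℂ) - α‖ ≤ 1 →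
      H0 ≤ Pool.Agent.Helper35.ht P →
      c ≤ ‖(ξ : ℂ) - α‖ * (Pool.Agent.Helper35.ht P : ℝ) ^ (w + ε + 1))
    (h2 : ∀ w' : ℝ, 0 ≤ w' → w' < w → w' ∈ Pool.Agent.Helper35.SSet ξ 2)
    (k : ℕ) (hk2 : 2 ≤ k) (hkn : k ≤ n) :
    wKoksma ξ k = (w : EReal) ∧ wKoksmaReal ξ k = (w : EReal) := by
  -- upper bound for the complex version
  have hupC : ∀ w' : ℝ, {α : ℂ | ∃ P : ℤ[X], IsMinPolyZ P α ∧ P.natDegree ≤ k ∧
      0 < ‖(ξ : ℂ) - α‖ ∧ ‖(ξ : ℂ) - α‖ ≤ (height P : ℝ) ^ (-w' - 1)}.Infinite → w' ≤ w := by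
    intro w' hw'
    by_contra hcon
    push Not at hcon
    obtain ⟨c, hc, H0, hP⟩ := h1 ((w' - w) / 2) (by linarith)
    obtain ⟨H, hH⟩ := exists_big c ((w' - w) / 2) hc (by linarith)
    -- there is an element of large height
    obtain ⟨α, P, hmin, hPn, hPpos, hPle, hPH⟩ : ∃ (α : ℂ) (P : ℤ[X]), IsMinPolyZ P α ∧
        P.natDegree ≤ k ∧ 0 < ‖(ξ : ℂ) - α‖ ∧ ‖(ξ : ℂ) - α‖ ≤ (height P : ℝ) ^ (-w' - 1) ∧
        max H H0 < height P := by
      by_contra hno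
      push Not at hno
      apply hw'
      have hfin : (⋃ P ∈ (↑(Pool.Agent.Helper35.boxF k (max H H0)) : Set ℤ[X]),
          {α : ℂ | P ≠ 0 ∧ aeval α P = 0}).Finite := by
        apply Set.Finite.biUnion (Pool.Agent.Helper35.boxF k (max H H0)).finite_toSet
        intro P _
        by_cases hP : P = 0
        · simp [hP]
        · have h1 : (P.map (Int.castRingHom ℂ)) ≠ 0 :=
            (Polynomial.map_ne_zero_iff (RingHom.injective_int _)).mpr hP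
          apply (P.map (Int.castRingHom ℂ)).roots.toFinset.finite_toSet.subset
          intro α hα
          rw [Finset.mem_coe, Multiset.mem_toFinset, mem_roots h1, IsRoot.def]
          have h2 := hα.2
          rw [eval_map]
          simpa [aeval_def] using h2
      apply hfin.subset
      rintro α ⟨P, hmin, hPn, hPpos, hPle⟩
      rw [Set.mem_iUnion₂]
      exact ⟨P, Pool.Agent.Helper35.mem_boxF hPn (hno α P hmin hPn hPpos hPle), hmin.1.ne_zero,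
        hmin.2.2.2⟩
    rw [height_eq] at hPle hPH
    have hpos1 : (1 : ℝ) ≤ Pool.Agent.Helper35.ht P := by
      exact_mod_cast Pool.Agent.Helper35.ht_pos hmin.1.ne_zero
    have hpos : (0 : ℝ) < Pool.Agent.Helper35.ht P := by linarith
    have hclose : ‖(ξ : ℂ) - α‖ ≤ 1 :=
      hPle.trans (Real.rpow_le_one_of_one_le_of_nonpos hpos1 (by linarith))
    have h3 := hP P α hmin.1 hmin.2.1 hmin.2.2.2 (hPn.trans hkn) hclose
      ((le_max_right _ _).trans hPH.le)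
    have h4 := hH _ (lt_of_le_of_lt (le_max_left _ _) hPH)
    have h5 : c ≤ (Pool.Agent.Helper35.ht P : ℝ) ^ (-w' - 1) *
        (Pool.Agent.Helper35.ht P : ℝ) ^ (w + (w' - w) / 2 + 1) :=
      h3.trans (mul_le_mul_of_nonneg_right hPle (Real.rpow_nonneg hpos.le _))
    rw [← Real.rpow_add hpos] at h5
    have e : -w' - 1 + (w + (w' - w) / 2 + 1) = -((w' - w) / 2) := by ring
    rw [e] at h5
    linarith
  -- lower bound for the real version
  have hloR : ∀ w' : ℝ, 0 ≤ w' → w' < w → {α : ℝ | ∃ P : ℤ[X], IsMinPolyZ P (α : ℂ) ∧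
      P.natDegree ≤ k ∧ 0 < |ξ - α| ∧ |ξ - α| ≤ (height P : ℝ) ^ (-w' - 1)}.Infinite := by
    intro w' hw'0 hw'
    have h3 : Set.Infinite _ := h2 w' hw'0 hw'
    refine h3.mono ?_
    rintro α ⟨P, ⟨hP1, hP2, hP3, hP4⟩, hPn, hPpos, hPle⟩
    refine ⟨P, ⟨hP1, hP2, hP3, ?_⟩, hPn.trans hk2, hPpos, hPle⟩
    rw [Pool.Agent.W72.aeval_coe, hP4]
    simp
  -- real sets inject into complex sets
  have hRC : ∀ w' : ℝ, {α : ℝ | ∃ P : ℤ[X], IsMinPolyZ P (α : ℂ) ∧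
      P.natDegree ≤ k ∧ 0 < |ξ - α| ∧ |ξ - α| ≤ (height P : ℝ) ^ (-w' - 1)}.Infinite →
      {α : ℂ | ∃ P : ℤ[X], IsMinPolyZ P α ∧ P.natDegree ≤ k ∧
      0 < ‖(ξ : ℂ) - α‖ ∧ ‖(ξ : ℂ) - α‖ ≤ (height P : ℝ) ^ (-w' - 1)}.Infinite := by
    intro w' hinf
    have h3 := hinf.image (Complex.ofReal_injective.injOn (s := {α : ℝ | ∃ P : ℤ[X],
      IsMinPolyZ P (α : ℂ) ∧ P.natDegree ≤ k ∧ 0 < |ξ - α| ∧
      |ξ - α| ≤ (height P : ℝ) ^ (-w' - 1)}))
    refine h3.mono ?_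
    rintro _ ⟨α, ⟨P, hmin, hPn, hPpos, hPle⟩, rfl⟩
    have e : ‖(ξ : ℂ) - (α : ℂ)‖ = |ξ - α| := by
      rw [← Complex.ofReal_sub, Complex.norm_real, Real.norm_eq_abs]
    exact ⟨P, hmin, hPn, by rw [e]; exact hPpos, by rw [e]; exact hPle⟩
  refine ⟨?_, ?_⟩
  · exact sSup_eq_of _ w hw (fun w' hw' => hupC w' hw')
      (fun w' hw'0 hw' => hRC w' (hloR w' hw'0 hw'))
  · exact sSup_eq_of _ w hw (fun w' hw' => hupC w' (hRC w' hw'))
      (fun w' hw'0 hw' => hloR w' hw'0 hw')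


theorem app_get (L : List Bool) (τ : ℕ → Bool) (i : ℕ) (h : i < L.length) :
    Pool.Agent.W72.app L τ i = L[i] := by
  induction L generalizing i with
  | nil => simp at h
  | cons b L ih =>
    cases i with
    | zero => simp [Pool.Agent.W72.app, Pool.Agent.W72.scons]
    | succ i =>
      have h' : i < L.length := by simpa using h
      simp only [Pool.Agent.W72.app, Pool.Agent.W72.scons_succ, List.getElem_cons_succ]
      exact ih i h'

/-- the digits `1`, `2` of a word -/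
def dig (s : ℕ → Bool) (i : ℕ) : ℕ := if s i then 2 else 1

theorem dig_mem (s : ℕ → Bool) (i : ℕ) : dig s i = 1 ∨ dig s i = 2 := by
  unfold dig; split_ifs <;> simp

theorem isCF_eta (s : ℕ → Bool) : IsContinuedFraction (Pool.Agent.W72.eta s) (dig s) := by
  refine ⟨fun i => Pool.Agent.W72.eta (fun j => s (j + i)), rfl, fun i => ⟨?_, ?_⟩⟩
  · have := Pool.Agent.W72.eta_ge (fun j => s (j + (i + 1)))
    simp only
    linarith
  · have h := Pool.Agent.W72.eta_rec (fun j => s (j + i))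
    have h2 : Pool.Agent.W72.stail (fun j => s (j + i)) = fun j => s (j + (i + 1)) := by
      funext j
      show s (j + 1 + i) = s (j + (i + 1))
      congr 1
      ring
    rw [h2] at h
    simp only
    rw [h]
    congr 1
    simp only [zero_add, dig, Pool.Agent.W72.dg]
    cases s i <;> simp

/-- the word of a list of digits -/
def wrd (L : List ℕ) : List Bool := L.map (fun a => decide (a = 2)) ++ [true]

theorem dig_app (L : List ℕ) (hL : ∀ a ∈ L, a = 1 ∨ a = 2) (τ : ℕ → Bool) (i : ℕ)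
    (h : i < L.length) : dig (Pool.Agent.W72.app (wrd L) τ) i = L[i] := by
  have h1 : i < (wrd L).length := by simp [wrd]; omega
  unfold dig
  rw [app_get _ _ _ h1]
  have h2 : (wrd L)[i] = decide (L[i] = 2) := by
    simp [wrd, List.getElem_append, h]
  rw [h2]
  rcases hL _ (List.getElem_mem h) with h3 | h3 <;> rw [h3] <;> simp

/-- The two families of badly approximable numbers. -/
theorem main (n : ℕ) (hn : 2 ≤ n) (w : ℝ) (hw : (n : ℝ) ≤ w) (L : List ℕ)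
    (hL : ∀ a ∈ L, a = 1 ∨ a = 2) :
    (∃ s : ℕ → Bool, (∀ i (h : i < L.length), dig s i = L[i]) ∧
      ∀ k, 2 ≤ k → k ≤ n → wMahler (Pool.Agent.W72.eta s) k = (w : EReal)) ∧
    (∃ s : ℕ → Bool, (∀ i (h : i < L.length), dig s i = L[i]) ∧
      ∀ k, 2 ≤ k → k ≤ n → wKoksma (Pool.Agent.W72.eta s) k = (w : EReal) ∧
        wKoksmaReal (Pool.Agent.W72.eta s) k = (w : EReal) ∧
        wMahler (Pool.Agent.W72.eta s) k = ((w + 1 : ℝ) : EReal)) := by
  have hn2 : (2 : ℝ) ≤ n := by exact_mod_cast hn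
  have hne : wrd L ≠ [] := by simp [wrd]
  constructor
  · obtain ⟨s, U, σ, t, ⟨τ, hτ⟩, htm, hU, hl, hs, hlow⟩ :=
      construction_pre n (by omega) w w hw (Or.inl rfl) (wrd L) hne
    obtain ⟨h1, h2⟩ := mahler_gen n hn w w hw le_rfl s U σ t htm hU hl hs hlow
    refine ⟨s, fun i h => ?_, fun k hk2 hkn => wMahler_eq n w (by linarith) s h1 h2 k hk2 hkn⟩
    rw [hτ]
    exact dig_app L hL τ i h
  · obtain ⟨s, U, σ, t, ⟨τ, hτ⟩, htm, hU, hl, hs, hlow⟩ :=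
      construction_pre n (by omega) w (w + 1) hw (Or.inr rfl) (wrd L) hne
    obtain ⟨h1, h2⟩ := mahler_gen n hn w (w + 1) hw (by linarith) s U σ t htm hU hl hs hlow
    obtain ⟨h3, h4⟩ := koksma_gen n hn w hw s U σ t htm hU hl hs hlow
    refine ⟨s, fun i h => ?_, fun k hk2 hkn => ?_⟩
    · rw [hτ]
      exact dig_app L hL τ i h
    · obtain ⟨h5, h6⟩ := wKoksma_eq n w (by linarith) (Pool.Agent.W72.eta s) h3 h4 k hk2 hkn
      exact ⟨h5, h6, wMahler_eq n (w + 1) (by linarith) s h1 h2 k hk2 hkn⟩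

end Pool.Agent.Y138.BA
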